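import Pool.Agent.U209.CoverFree.Sq
import Pool.Agent.U209.CoverFree.Plane

/-!
MP_0b1105_co, Q2 (Erdős, Frankl, Füredi 1985, stronger form): `N*(t) ≥ (t + 1)^2` for all `t`.

The starting library proves (file `Pool.Agent.W212.EFF.Pack`, Gallai's theorem on critical graphs
for complexes) that every member `A` of a `t`-cover-free family without private points carries
weights `u ≥ 0` of weight at most `1` on every `A ∩ A'`, `A' ≠ A`, with `∑_{v ∈ A} √(u v) ≥ t + 1`.
New here: if the family has more members than points, its incidence vectors are linearly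
dependent, and these weights, tested against the positive and the negative part of a dependency,
give `n ≥ (t + 1)^2`.
-/

set_option autoImplicit false

namespace Pool.Agent.Results.MP_0b1105_co.SquareBound

/-- `F` is `t`-cover-free: no member is contained in the union of at most `t` other members. -/
def CoverFree {α : Type*} [DecidableEq α] (t : ℕ) (F : Finset (Finset α)) : Prop :=
  ∀ A ∈ F, ∀ S ⊆ F.erase A, S.card ≤ t → ¬ A ⊆ S.sup id

/-- `N*(t)`: the least `n` for which some `t`-cover-free family of subsets of an `n`-element set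
has more than `n` members. -/
noncomputable def Nstar (t : ℕ) : ℕ :=
  sInf {n : ℕ | ∃ F : Finset (Finset (Fin n)), n < F.card ∧ CoverFree t F}

universe u

/-- (1) `N*(t) ≥ (t + 1)^2` for every `t`; the minimum defining `N*(t)` is attained, that is,
some `t`-cover-free family on `N*(t)` points has more than `N*(t)` members. (2) On every finite
ground set with fewer than `(t + 1)^2` points a `t`-cover-free family has at most as many members
as points. (3) `N*(q - 1) = q^2` for every prime power `q`. -/
theorem result :
    (∀ t : ℕ, (t + 1) ^ 2 ≤ Nstar t ∧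
      ∃ F : Finset (Finset (Fin (Nstar t))), Nstar t < F.card ∧ CoverFree t F) ∧
    (∀ (α : Type u) [Fintype α] [DecidableEq α] (t : ℕ) (F : Finset (Finset α)),
      CoverFree t F → Fintype.card α < (t + 1) ^ 2 → F.card ≤ Fintype.card α) ∧
    (∀ q : ℕ, IsPrimePow q → Nstar (q - 1) = q ^ 2) := by
  have h1 : ∀ (t n : ℕ) (F : Finset (Finset (Fin n))), n < F.card → CoverFree t F →
      (t + 1) ^ 2 ≤ n := by
    intro t n F hF hcf
    have := U209.CoverFree.sq_le (t := t) n (Finset.univ : Finset (Fin n)) (by simp) F
      (fun A _ => Finset.subset_univ A) hcf (by simpa using hF)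
    simpa using this
  have hmem : ∀ t : ℕ,
      Nstar t ∈ {n : ℕ | ∃ F : Finset (Finset (Fin n)), n < F.card ∧ CoverFree t F} := by
    intro t
    obtain ⟨p, hp, hpp⟩ := Nat.exists_infinite_primes (t + 1)
    apply Nat.sInf_mem
    exact ⟨p ^ 2, U209.CoverFree.plane_primePow hpp.isPrimePow hp⟩
  have h2 : ∀ t : ℕ, (t + 1) ^ 2 ≤ Nstar t := by
    intro t
    obtain ⟨F, hF, hcf⟩ := hmem t
    exact h1 t _ F hF hcf
  refine ⟨fun t => ⟨h2 t, hmem t⟩, ?_, ?_⟩
  · intro α _ _ t F hcf hlt
    by_contra hcon
    push Not at hcon
    have := U209.CoverFree.sq_le (t := t) _ (Finset.univ : Finset α) le_rfl F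
      (fun A _ => Finset.subset_univ A) hcf (by rwa [Finset.card_univ])
    rw [Finset.card_univ] at this
    omega
  · intro q hq
    have hq1 : 1 ≤ q := hq.pos
    apply le_antisymm
    · apply Nat.sInf_le
      exact U209.CoverFree.plane_primePow hq (by omega)
    · have := h2 (q - 1)
      rwa [Nat.sub_add_cancel hq1] at this

end Pool.Agent.Results.MP_0b1105_co.SquareBound
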